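import Pool.Agent.Work.MP_84019e_co.Sg.Final

set_option autoImplicit false

namespace Pool.Agent.Results.MP_84019e_co.StrongIterated

open Pool.Agent.Work.MP_84019e_co Filter Topology

/-- The strong version of the question without the existence of the limit in a fixed dimension:
the cube densities converge to a number `π`, the grid densities are within `ε` of `π` for all
large dimensions and then all large sides, and so the limits in fixed dimensions, if they exist,
converge to `π`. -/
theorem result (P : Type) [PartialOrder P] [Fintype P] [Nonempty P] :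
    ∃ π : ℝ,
      Tendsto (fun n : ℕ => (Str.LaStar (Finset (Fin n)) P : ℝ) / (n.choose (n / 2) : ℝ)) atTop
        (𝓝 π) ∧
      (∀ ε : ℝ, 0 < ε → ∀ᶠ d : ℕ in atTop, ∀ᶠ k : ℕ in atTop,
        |(Str.LaStar (Fin d → Fin k) P : ℝ) / (width (Fin d → Fin k) : ℝ) - π| ≤ ε) ∧
      ∀ πd : ℕ → ℝ, (∀ᶠ d : ℕ in atTop, Tendsto
        (fun k : ℕ => (Str.LaStar (Fin d → Fin k) P : ℝ) / (width (Fin d → Fin k) : ℝ)) atTop
          (𝓝 (πd d))) → Tendsto πd atTop (𝓝 π) := by
  obtain ⟨π, h1, h2⟩ := Sg.strong_full P
  refine ⟨π, h1, h2, fun πd h => Metric.tendsto_nhds.2 fun ε hε => ?_⟩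
  filter_upwards [h, h2 (ε / 2) (half_pos hε)] with d a b
  rw [Real.dist_eq]
  exact (le_of_tendsto (a.sub_const π).abs b).trans_lt (half_lt_self hε)

end Pool.Agent.Results.MP_84019e_co.StrongIterated
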