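import Pool.Agent.Work.MP_84019e_co.Cube.Final

set_option autoImplicit false

namespace Pool.Agent.Results.MP_84019e_co.WeakFull

open Pool.Agent.Work.MP_84019e_co Filter Topology

/-- The weak version of the question, for every finite poset `P`: the grid densities `πd d`
exist, they converge to a number `π` as `d` grows, and the largest size of a weak `P`-free family
of subsets of an `n`-element set, divided by the middle binomial coefficient, converges to the
same `π`. -/
theorem result (P : Type) [PartialOrder P] [Fintype P] [Nonempty P] :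
    ∃ (πd : ℕ → ℝ) (π : ℝ),
      (∀ d : ℕ, 1 ≤ d → Tendsto
        (fun k : ℕ => (La (Fin d → Fin k) P : ℝ) / (width (Fin d → Fin k) : ℝ)) atTop (𝓝 (πd d))) ∧
      Tendsto πd atTop (𝓝 π) ∧
      Tendsto (fun n : ℕ => (La (Finset (Fin n)) P : ℝ) / (n.choose (n / 2) : ℝ)) atTop (𝓝 π) :=
  Cube.weak_full P

end Pool.Agent.Results.MP_84019e_co.WeakFull
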